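import Mathlib
import Pool.Agent.W602.NC.Good

/-!
Good circles for finite families of entire functions of controlled growth.
-/

set_option autoImplicit false
set_option linter.unusedSectionVars false
set_option linter.unusedSimpArgs false

open Filter Metric Topology

namespace Pool.Agent.Y742.CX

open Pool.Agent.H159R3.NV Pool.Agent.W602.NC

/-- the proximity function -/
noncomputable def mf (f : ℂ → ℂ) (r : ℝ) : ℝ :=
  Real.circleAverage (fun z => Real.posLog ‖f z‖) 0 r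

/-- the scale of growth -/
structure Scale (N : ℝ → ℝ) : Prop where
  one_le : ∀ r, 1 ≤ N r
  mono : ∀ r s, 0 < r → r ≤ s → N r ≤ N s
  grow : ∃ c, 0 < c ∧ ∀ r, 1 ≤ r → c * r ≤ N r

/-- entire functions of controlled growth -/
def Gr (N : ℝ → ℝ) (f : ℂ → ℂ) : Prop :=
  Differentiable ℂ f ∧ ∃ C, 0 ≤ C ∧ ∀ r, 1 ≤ r → mf f r ≤ C * N r

theorem mf_nonneg (f : ℂ → ℂ) (r : ℝ) : 0 ≤ mf f r :=
  Real.circleAverage_nonneg_of_nonneg fun _ _ => Real.posLog_nonneg

theorem fac0 : ∀ (n : ℕ) (f : ℂ → ℂ), Differentiable ℂ f → analyticOrderAt f 0 = n →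
    ∃ (m : ℕ) (g : ℂ → ℂ), Differentiable ℂ g ∧ g 0 ≠ 0 ∧ ∀ z, f z = z ^ m * g z := by
  intro n
  induction n with
  | zero =>
    intro f hf h0
    refine ⟨0, f, hf, ?_, fun z => by rw [pow_zero, one_mul]⟩
    rw [← (hf.analyticAt 0).analyticOrderAt_eq_zero, h0]
    rfl
  | succ n ih =>
    intro f hf h0
    have hf0 : f 0 = 0 := by
      by_contra h
      rw [(hf.analyticAt 0).analyticOrderAt_eq_zero.2 h] at h0
      have : ((n + 1 : ℕ) : ℕ∞) ≠ 0 := by exact_mod_cast Nat.succ_ne_zero n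
      exact this h0.symm
    have h1 : f = (fun x => x - 0) ^ 1 * dslope f 0 := by
      funext z
      rw [Pi.mul_apply, pow_one]
      exact dslope_fac hf0 z
    have hd := dslope_diff hf 0
    have h2 : analyticOrderAt f 0 = analyticOrderAt ((fun x : ℂ => x - 0) ^ 1) 0 +
        analyticOrderAt (dslope f 0) 0 := by
      conv_lhs => rw [h1]
      exact analyticOrderAt_mul (by fun_prop) (hd.analyticAt 0)
    rw [analyticOrderAt_centeredMonomial, h0] at h2
    have h3 : analyticOrderAt (dslope f 0) 0 = n := by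
      have h4 : analyticOrderAt (dslope f 0) 0 + 1 = (n : ℕ∞) + 1 := by
        rw [add_comm]
        push_cast at h2
        exact h2.symm
      exact ENat.add_left_injective_of_ne_top ENat.one_ne_top h4
    obtain ⟨m, g, hg, hg0, hgf⟩ := ih _ hd h3
    refine ⟨m + 1, g, hg, hg0, fun z => ?_⟩
    rw [dslope_fac hf0 z, hgf z, sub_zero, pow_succ]
    ring

theorem exists_fac (f : ℂ → ℂ) (hf : Differentiable ℂ f) (h : ∃ x, f x ≠ 0) :
    ∃ (m : ℕ) (g : ℂ → ℂ), Differentiable ℂ g ∧ g 0 ≠ 0 ∧ ∀ z, f z = z ^ m * g z := by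
  have h1 : analyticOrderAt f 0 ≠ ⊤ := by
    rw [Ne, analyticOrderAt_eq_top]
    intro h2
    obtain ⟨x, hx⟩ := h
    exact hx (AnalyticOnNhd.eqOn_zero_of_preconnected_of_eventuallyEq_zero
      (fun z _ => hf.analyticAt z) isPreconnected_univ (Set.mem_univ 0) h2 (Set.mem_univ x))
  obtain ⟨n, hn⟩ := ENat.ne_top_iff_exists.1 h1
  exact fac0 n f hf hn.symm

theorem growth_pt {N : ℝ → ℝ} (hS : Scale N) (r0 : ℝ) :
    ∃ r, r0 ≤ r ∧ N (r + 4 / N r) ≤ 2 * N r := by
  by_contra hcon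
  push Not at hcon
  let ρ : ℕ → ℝ := fun k => Nat.rec (max r0 1) (fun _ x => x + 4 / N x) k
  have hρ : ∀ k, ρ (k + 1) = ρ k + 4 / N (ρ k) := fun k => rfl
  have hpos : ∀ r, 0 < N r := fun r => lt_of_lt_of_le one_pos (hS.one_le r)
  have h1 : ∀ k, r0 ≤ ρ k ∧ 1 ≤ ρ k := by
    intro k
    induction k with
    | zero => exact ⟨le_max_left _ _, le_max_right _ _⟩
    | succ k ih =>
      rw [hρ]
      have : 0 < 4 / N (ρ k) := div_pos (by norm_num) (hpos _)
      exact ⟨by linarith [ih.1], by linarith [ih.2]⟩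
  have h2 : ∀ k, (2 : ℝ) ^ k ≤ N (ρ k) := by
    intro k
    induction k with
    | zero => simpa using hS.one_le _
    | succ k ih =>
      rw [hρ, pow_succ]
      have := hcon (ρ k) (h1 k).1
      linarith
  have h3 : ∀ k, ρ k ≤ max r0 1 + 8 * (1 - (1 / 2) ^ k) := by
    intro k
    induction k with
    | zero => simp [ρ]
    | succ k ih =>
      rw [hρ]
      have h4 : 4 / N (ρ k) ≤ 4 * (1 / 2) ^ k := by
        rw [one_div_pow, mul_one_div]
        exact div_le_div_of_nonneg_left (by norm_num) (by positivity) (h2 k)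
      have h5 : (1 / 2 : ℝ) ^ (k + 1) = (1 / 2) ^ k / 2 := by rw [pow_succ]; ring
      rw [h5]
      linarith
  obtain ⟨k, hk⟩ := pow_unbounded_of_one_lt (N (max r0 1 + 8)) (by norm_num : (1 : ℝ) < 2)
  have h4 : ρ k ≤ max r0 1 + 8 := by
    have := h3 k
    have h5 : (0 : ℝ) < (1 / 2) ^ k := by positivity
    linarith
  have h5 := hS.mono (ρ k) _ (by linarith [(h1 k).2]) h4
  have := h2 k
  linarith

/-- circles with small oscillation -/
def Good (N : ℝ → ℝ) (Φ : Set (ℂ → ℂ)) (s : ℝ) : Prop :=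
  ∃ ε, 0 < ε ∧ ε ≤ 1 ∧ 1 / ε ≤ (s * N s) ^ 10 ∧
    ∀ z, ‖z‖ = s → ∀ v ∈ Φ, ∀ w ∈ closedBall z ε, ‖v w‖ ≤ Real.exp 2 * ‖v z‖

theorem sph {s : ℝ} (hs : 0 < s) {z : ℂ} (hz : z ∈ sphere (0 : ℂ) |s|) : ‖z‖ = s := by
  rw [mem_sphere, dist_zero_right, abs_of_pos hs] at hz
  exact hz

theorem mf_le_of_fac {f g : ℂ → ℂ} (hf : Differentiable ℂ f) (hg : Differentiable ℂ g) {m : ℕ}
    (h : ∀ z, f z = z ^ m * g z) {r : ℝ} (hr : 1 ≤ r) : mf g r ≤ mf f r := by
  refine Real.circleAverage_mono (ci_posLog (mero_of_diff hg) r) (ci_posLog (mero_of_diff hf) r) ?_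
  intro z hz
  have hz' := sph (by linarith) hz
  apply Real.posLog_le_posLog (norm_nonneg _)
  rw [h, norm_mul, norm_pow, hz']
  exact le_mul_of_one_le_left (norm_nonneg _) (one_le_pow₀ hr)

theorem T2_one (g : ℂ → ℂ) (r : ℝ) : T2 (fun _ => 1) g r = mf g r := by
  unfold T2 mf L
  simp [Real.circleAverage_const]

theorem exists_good {N : ℝ → ℝ} (hS : Scale N) (p : ℕ) (f : Fin p → ℂ → ℂ)
    (hf : ∀ j, Gr N (f j)) (hne : ∀ j, ∃ x, f j x ≠ 0) (r0 : ℝ) :
    ∃ s, r0 ≤ s ∧ Good N (Set.range f) s := by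
  classical
  choose m g hg hg0 hfac using fun j => exists_fac (f j) (hf j).1 (hne j)
  choose C hC0 hC using fun j => (hf j).2
  let v : Fin (p + 1) → ℂ → ℂ := Fin.cons (fun _ => 1) g
  let Λ : ℝ := ∑ j, |Real.log ‖v j 0‖|
  have hΛ0 : 0 ≤ Λ := Finset.sum_nonneg fun _ _ => abs_nonneg _
  have hB : Base v Λ := by
    refine ⟨?_, ?_, hΛ0, ?_⟩
    · intro j
      refine Fin.cases ?_ (fun j => ?_) j
      · exact differentiable_const _
      · exact hg j
    · intro j
      refine Fin.cases ?_ (fun j => ?_) j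
      · exact one_ne_zero
      · exact hg0 j
    · intro j
      exact Finset.single_le_sum (f := fun j => |Real.log ‖v j 0‖|) (fun _ _ => abs_nonneg _)
        (Finset.mem_univ j)
  let C' : ℝ := ∑ j, C j + (p + 1) * Λ
  have hC'0 : 0 ≤ C' := add_nonneg (Finset.sum_nonneg fun _ _ => hC0 _) (by positivity)
  have hpos : ∀ r, 0 < N r := fun r => lt_of_lt_of_le one_pos (hS.one_le r)
  have hSS : ∀ R, 1 ≤ R → SS v Λ R ≤ C' * N R := by
    intro R hR
    unfold SS
    rw [Fin.sum_univ_succ]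
    have e0 : T2 (v 0) (v 0) R = 0 := by
      show T2 (fun _ => 1) (fun _ => 1) R = 0
      rw [T2_one]
      unfold mf
      simp [Real.posLog, Real.circleAverage_const]
    have e1 : ∀ j : Fin p, T2 (v 0) (v j.succ) R + Λ ≤ C j * N R + Λ := by
      intro j
      have h1 : T2 (v 0) (v j.succ) R = mf (g j) R := T2_one _ _
      rw [h1]
      have := (mf_le_of_fac (hf j).1 (hg j) (hfac j) hR).trans (hC j R hR)
      linarith
    rw [e0, zero_add]
    refine (add_le_add le_rfl (Finset.sum_le_sum fun j _ => e1 j)).trans ?_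
    rw [Finset.sum_add_distrib, Finset.sum_const, Finset.card_univ, Fintype.card_fin,
      nsmul_eq_mul, ← Finset.sum_mul]
    have e2 : C' * N R = (∑ j, C j) * N R + (p + 1) * Λ * N R := by
      simp only [C']
      ring
    rw [e2]
    have e3 : (p + 1) * Λ ≤ (p + 1) * Λ * N R :=
      le_mul_of_one_le_right (by positivity) (hS.one_le R)
    linarith
  let K : ℝ := 2000 * 125 * (2 * C' + 1) ^ 2
  let r1 : ℝ := max r0 (max 1 (max K (∑ j, (m j : ℝ))))
  obtain ⟨r, hr1, hr2⟩ := growth_pt hS r1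
  have hrr0 : r0 ≤ r := (le_max_left _ _).trans hr1
  have hr1' : 1 ≤ r := (le_max_left _ _).trans ((le_max_right _ _).trans hr1)
  have hrK : K ≤ r := (le_max_left _ _).trans
    ((le_max_right _ _).trans ((le_max_right _ _).trans hr1))
  have hrm : ∑ j, (m j : ℝ) ≤ r := (le_max_right _ _).trans
    ((le_max_right _ _).trans ((le_max_right _ _).trans hr1))
  have hδ : 0 < 1 / N r := div_pos one_pos (hpos r)
  have hδ1 : 1 / N r ≤ 1 := by
    rw [div_le_one (hpos r)]
    exact hS.one_le r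
  obtain ⟨s, ε, hrs, hsr, hε, hε1, hεb, -, hosc⟩ := hB.good hr1' hδ hδ1
  have hs1 : 1 ≤ s := hr1'.trans hrs
  refine ⟨s, hrr0.trans hrs, ε, hε, hε1, ?_, ?_⟩
  · have h1 : r + 4 * (1 / N r) = r + 4 / N r := by ring
    rw [h1] at hεb
    have h2 : r + 4 / N r ≤ 5 * r := by
      have : 4 / N r ≤ 4 := div_le_self (by norm_num) (hS.one_le r)
      linarith
    have h3 : 0 ≤ 4 / N r := (div_pos (by norm_num) (hpos r)).le
    have h4 : SS v Λ (r + 4 / N r) + 1 ≤ (2 * C' + 1) * N r := by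
      have h5 := hSS (r + 4 / N r) (by linarith)
      have h6 := mul_le_mul_of_nonneg_left hr2 hC'0
      have h7 := hS.one_le r
      nlinarith
    have h5 : 0 ≤ SS v Λ (r + 4 / N r) + 1 := by
      have := hB.SS_nonneg (R := r + 4 / N r) (by linarith)
      linarith
    have h6 : (r + 4 / N r) ^ 3 ≤ (5 * r) ^ 3 := pow_le_pow_left₀ (by linarith) h2 3
    have h7 : (SS v Λ (r + 4 / N r) + 1) ^ 2 ≤ ((2 * C' + 1) * N r) ^ 2 :=
      pow_le_pow_left₀ h5 h4 2
    have h8 : 2 * (1000 * (r + 4 / N r) ^ 3 * (SS v Λ (r + 4 / N r) + 1) ^ 2 / (1 / N r) ^ 4) ≤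
        2 * (1000 * (5 * r) ^ 3 * ((2 * C' + 1) * N r) ^ 2 / (1 / N r) ^ 4) := by
      gcongr
    have h9 : 2 * (1000 * (5 * r) ^ 3 * ((2 * C' + 1) * N r) ^ 2 / (1 / N r) ^ 4) =
        K * (r ^ 3 * N r ^ 6) := by
      have := (hpos r).ne'
      simp only [K]
      field_simp
      ring
    refine hεb.trans (h8.trans ?_)
    rw [h9]
    have h10 : K * (r ^ 3 * N r ^ 6) ≤ (r * N r) ^ 10 := by
      have k1 : K * (r ^ 3 * N r ^ 6) ≤ r * (r ^ 3 * N r ^ 6) :=
        mul_le_mul_of_nonneg_right hrK (by have := hpos r; positivity)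
      have k2 : (r * N r) ^ 10 = (r ^ 6 * N r ^ 4) * (r * (r ^ 3 * N r ^ 6)) := by ring
      have k3 : 1 ≤ r ^ 6 * N r ^ 4 := by
        have a1 := one_le_pow₀ hr1' (n := 6)
        have a2 := one_le_pow₀ (hS.one_le r) (n := 4)
        nlinarith
      rw [k2]
      refine k1.trans (le_mul_of_one_le_left ?_ k3)
      have := hpos r
      positivity
    refine h10.trans (pow_le_pow_left₀ (by have := hpos r; positivity) ?_ 10)
    exact mul_le_mul hrs (hS.mono r s (by linarith) hrs) (hpos r).le (by linarith)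
  · rintro z hz _ ⟨j, rfl⟩ w hw
    have h1 := hosc z hz 0 j.succ w hw
    have h2 : ‖g j w‖ ≤ Real.exp 1 * ‖g j z‖ := by
      have e1 : v j.succ = g j := rfl
      have e2 : ∀ x, v 0 x = 1 := fun _ => rfl
      rw [e1, e2, e2, div_one, div_one] at h1
      exact h1
    have h3 : ‖w‖ ≤ s * Real.exp (1 / s) := by
      have h4 : ‖w‖ ≤ s + 1 := by
        rw [mem_closedBall, dist_eq_norm] at hw
        calc ‖w‖ = ‖z + (w - z)‖ := by congr 1; ring
          _ ≤ ‖z‖ + ‖w - z‖ := norm_add_le _ _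
          _ ≤ s + 1 := by linarith
      have h5 := Real.add_one_le_exp (1 / s)
      have h6 : s * (1 / s + 1) = s + 1 := by field_simp; ring
      calc ‖w‖ ≤ s + 1 := h4
        _ = s * (1 / s + 1) := h6.symm
        _ ≤ _ := mul_le_mul_of_nonneg_left h5 (by linarith)
    have h4 : ‖w‖ ^ m j ≤ s ^ m j * Real.exp 1 := by
      refine (pow_le_pow_left₀ (norm_nonneg _) h3 (m j)).trans ?_
      rw [mul_pow, ← Real.exp_nat_mul]
      refine mul_le_mul_of_nonneg_left ?_ (by positivity)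
      rw [Real.exp_le_exp, mul_one_div, div_le_one (by linarith)]
      refine le_trans ?_ (hrm.trans hrs)
      exact Finset.single_le_sum (f := fun j => (m j : ℝ)) (fun _ _ => Nat.cast_nonneg _)
        (Finset.mem_univ j)
    rw [hfac, hfac, norm_mul, norm_mul, norm_pow, norm_pow, hz]
    calc ‖w‖ ^ m j * ‖g j w‖ ≤ (s ^ m j * Real.exp 1) * (Real.exp 1 * ‖g j z‖) :=
          mul_le_mul h4 h2 (norm_nonneg _) (by positivity)
      _ = Real.exp 2 * (s ^ m j * ‖g j z‖) := by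
        have : Real.exp 2 = Real.exp 1 * Real.exp 1 := by
          rw [← Real.exp_add]
          norm_num
        rw [this]
        ring

end Pool.Agent.Y742.CX
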