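import Mathlib
import Pool.Agent.Y742.CX.Rad
import Pool.Agent.Y742.DI.Dict
import Pool.Agent.H159R3.Exp.Borel

/-!
The field of quotients of entire functions of controlled growth.
-/

set_option autoImplicit false
set_option linter.unusedSectionVars false
set_option linter.unusedSimpArgs false

open Filter Metric Topology

namespace Pool.Agent.Y742.CX

open Pool.Agent.H159R3.NV

section filters

theorem Good.mono {N : ℝ → ℝ} {Φ Ψ : Set (ℂ → ℂ)} (h : Ψ ⊆ Φ) {s : ℝ} (hg : Good N Φ s) :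
    Good N Ψ s := by
  obtain ⟨ε, h1, h2, h3, h4⟩ := hg
  exact ⟨ε, h1, h2, h3, fun z hz v hv => h4 z hz v (h hv)⟩

/-- the filter of radii -/
def LL (N : ℝ → ℝ) : Filter ℝ where
  sets := {S | ∃ Φ : Set (ℂ → ℂ), Φ.Finite ∧ (∀ v ∈ Φ, Gr N v ∧ ∃ x, v x ≠ 0) ∧
    ∃ r0, ∀ s, r0 ≤ s → Good N Φ s → s ∈ S}
  univ_sets := ⟨∅, Set.finite_empty, fun v hv => absurd hv (Set.notMem_empty v), 0,
    fun _ _ _ => trivial⟩
  sets_of_superset := by
    rintro S T ⟨Φ, h1, h2, r0, h3⟩ hST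
    exact ⟨Φ, h1, h2, r0, fun s h4 h5 => hST (h3 s h4 h5)⟩
  inter_sets := by
    rintro S T ⟨Φ, h1, h2, r0, h3⟩ ⟨Ψ, k1, k2, t0, k3⟩
    refine ⟨Φ ∪ Ψ, h1.union k1, ?_, max r0 t0, fun s h4 h5 => ⟨?_, ?_⟩⟩
    · rintro v (hv | hv)
      · exact h2 v hv
      · exact k2 v hv
    · exact h3 s ((le_max_left _ _).trans h4) (h5.mono Set.subset_union_left)
    · exact k3 s ((le_max_right _ _).trans h4) (h5.mono Set.subset_union_right)

theorem LL_ge {N : ℝ → ℝ} (b : ℝ) : ∀ᶠ s in LL N, b ≤ s :=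
  ⟨∅, Set.finite_empty, fun v hv => absurd hv (Set.notMem_empty v), b, fun _ h _ => h⟩

theorem LL_good {N : ℝ → ℝ} (Φ : Set (ℂ → ℂ)) (hΦ : Φ.Finite)
    (h : ∀ v ∈ Φ, Gr N v ∧ ∃ x, v x ≠ 0) : ∀ᶠ s in LL N, Good N Φ s :=
  ⟨Φ, hΦ, h, 0, fun _ _ h => h⟩

theorem LL_neBot {N : ℝ → ℝ} (hS : Scale N) : (LL N).NeBot := by
  rw [Filter.neBot_iff]
  intro h
  have h1 : (∅ : Set ℝ) ∈ LL N := by rw [h]; exact Filter.mem_bot
  obtain ⟨Φ, h2, h3, r0, h4⟩ := h1
  have := h2.to_subtype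
  obtain ⟨p, ⟨e⟩⟩ := Finite.exists_equiv_fin Φ
  obtain ⟨s, hs1, hs2⟩ := exists_good hS p (fun j => (e.symm j : ℂ → ℂ))
    (fun j => (h3 _ (e.symm j).2).1) (fun j => (h3 _ (e.symm j).2).2) r0
  have h5 : Set.range (fun j => (e.symm j : ℂ → ℂ)) = Φ := by
    ext v
    constructor
    · rintro ⟨j, rfl⟩
      exact (e.symm j).2
    · intro hv
      exact ⟨e ⟨v, hv⟩, by simp⟩
  rw [h5] at hs2
  exact h4 s hs1 hs2

theorem LL_tendsto {N : ℝ → ℝ} (hS : Scale N) : Tendsto N (LL N) atTop := by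
  obtain ⟨c, hc, h⟩ := hS.grow
  rw [Filter.tendsto_atTop]
  intro b
  filter_upwards [LL_ge (max 1 (b / c))] with s hs
  have h1 : 1 ≤ s := (le_max_left _ _).trans hs
  have h2 : b / c ≤ s := (le_max_right _ _).trans hs
  rw [div_le_iff₀ hc] at h2
  linarith [h s h1]

/-- the points on the circles, up to discrete sets -/
noncomputable def EV (N : ℝ → ℝ) : Filter ℂ := (LL N).bind fun s => codiscreteWithin (sphere (0 : ℂ) |s|)

theorem ev_all {N : ℝ → ℝ} {p : ℂ → Prop} (h : ∀ z, p z) : ∀ᶠ z in EV N, p z :=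
  Filter.Eventually.of_forall h

theorem ev_of_cod {N : ℝ → ℝ} {p : ℂ → Prop}
    (h : ∀ s, ∀ᶠ z in codiscreteWithin (sphere (0 : ℂ) |s|), p z) : ∀ᶠ z in EV N, p z := by
  unfold EV
  rw [Filter.eventually_bind]
  exact Filter.Eventually.of_forall h

theorem ev_ne' {N : ℝ → ℝ} {f : ℂ → ℂ} (hf : Differentiable ℂ f) (h : ∃ x, f x ≠ 0) :
    ∀ᶠ z in EV N, f z ≠ 0 := by
  obtain ⟨x, hx⟩ := h
  exact ev_of_cod fun s => ne_cod hf hx s

/-- negligible functions -/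
def Ng (N : ℝ → ℝ) (f : ℂ → ℝ) : Prop :=
  ∀ ε : ℝ, 0 < ε → ∀ᶠ s in LL N, ∃ g : ℂ → ℝ, CircleIntegrable g 0 s ∧
    (∀ᶠ z in codiscreteWithin (sphere (0 : ℂ) |s|), f z ≤ g z) ∧
    Real.circleAverage g 0 s ≤ ε * N s

end filters

section ring

variable {N : ℝ → ℝ}

theorem mf_mul {f g : ℂ → ℂ} (hf : Differentiable ℂ f) (hg : Differentiable ℂ g) (r : ℝ) :
    mf (f * g) r ≤ mf f r + mf g r := by
  unfold mf
  rw [← Real.circleAverage_fun_add (ci_posLog (mero_of_diff hf) r)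
    (ci_posLog (mero_of_diff hg) r)]
  refine Real.circleAverage_mono (ci_posLog (mero_of_diff (hf.mul hg)) r)
    ((ci_posLog (mero_of_diff hf) r).add (ci_posLog (mero_of_diff hg) r)) fun z _ => ?_
  rw [Pi.mul_apply, norm_mul]
  exact Real.posLog_mul

theorem mf_add {f g : ℂ → ℂ} (hf : Differentiable ℂ f) (hg : Differentiable ℂ g) (r : ℝ) :
    mf (f + g) r ≤ Real.log 2 + mf f r + mf g r := by
  have i1 := ci_posLog (mero_of_diff hf) r
  have i2 := ci_posLog (mero_of_diff hg) r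
  have i3 : CircleIntegrable (fun z => Real.log 2 + Real.posLog ‖f z‖) 0 r :=
    (circleIntegrable_const _ _ _).add i1
  have e1 : Real.log 2 + mf f r + mf g r = Real.circleAverage
      (fun z => (Real.log 2 + Real.posLog ‖f z‖) + Real.posLog ‖g z‖) 0 r := by
    rw [Real.circleAverage_fun_add i3 i2, Real.circleAverage_fun_add
      (circleIntegrable_const _ _ _) i1, Real.circleAverage_const]
    rfl
  rw [e1]
  refine Real.circleAverage_mono (ci_posLog (mero_of_diff (hf.add hg)) r) (i3.add i2) fun z _ => ?_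
  exact (Real.posLog_le_posLog (norm_nonneg _) (norm_add_le _ _)).trans Real.posLog_add

theorem mf_const (c : ℂ) (r : ℝ) : mf (fun _ => c) r = Real.posLog ‖c‖ := by
  unfold mf
  rw [Real.circleAverage_const]

theorem Gr.const (hS : Scale N) (c : ℂ) : Gr N (fun _ => c) := by
  refine ⟨differentiable_const _, Real.posLog ‖c‖, Real.posLog_nonneg, fun r _ => ?_⟩
  rw [mf_const]
  exact le_mul_of_one_le_right Real.posLog_nonneg (hS.one_le r)

theorem Gr.mul {f g : ℂ → ℂ} (hf : Gr N f) (hg : Gr N g) : Gr N (f * g) := by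
  obtain ⟨h1, C, hC, h2⟩ := hf
  obtain ⟨h3, C', hC', h4⟩ := hg
  refine ⟨h1.mul h3, C + C', add_nonneg hC hC', fun r hr => ?_⟩
  have := mf_mul h1 h3 r
  linarith [h2 r hr, h4 r hr]

theorem Gr.add (hS : Scale N) {f g : ℂ → ℂ} (hf : Gr N f) (hg : Gr N g) : Gr N (f + g) := by
  obtain ⟨h1, C, hC, h2⟩ := hf
  obtain ⟨h3, C', hC', h4⟩ := hg
  refine ⟨h1.add h3, Real.log 2 + C + C', by positivity, fun r hr => ?_⟩
  have := mf_add h1 h3 r
  have h5 : Real.log 2 ≤ Real.log 2 * N r :=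
    le_mul_of_one_le_right (Real.log_nonneg (by norm_num)) (hS.one_le r)
  linarith [h2 r hr, h4 r hr]

/-- the ring of entire functions of controlled growth -/
def RR (N : ℝ → ℝ) (hS : Scale N) : Subalgebra ℂ (ℂ → ℂ) where
  carrier := {f | Gr N f}
  mul_mem' := fun h1 h2 => h1.mul h2
  add_mem' := fun h1 h2 => Gr.add hS h1 h2
  algebraMap_mem' := fun c => Gr.const hS c

variable (hS : Scale N)

theorem RR.diff (f : RR N hS) : Differentiable ℂ (f : ℂ → ℂ) := f.2.1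

instance : NoZeroDivisors (RR N hS) where
  eq_zero_or_eq_zero_of_mul_eq_zero := by
    intro f g h
    rcases ent_eq_zero_or (RR.diff hS f) (RR.diff hS g) (fun z => congrFun (congrArg Subtype.val h) z)
      with h1 | h1
    · exact Or.inl (Subtype.ext h1)
    · exact Or.inr (Subtype.ext h1)

instance : IsDomain (RR N hS) := NoZeroDivisors.to_isDomain _

theorem RR_ne (f : RR N hS) (hf : f ≠ 0) : ∃ x, (f : ℂ → ℂ) x ≠ 0 := by
  by_contra hcon
  push Not at hcon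
  exact hf (Subtype.ext (funext hcon))

/-- the field of quotients -/
abbrev EF (N : ℝ → ℝ) (hS : Scale N) : Type := FractionRing (RR N hS)

/-- the inclusion -/
noncomputable abbrev ic : RR N hS →+* EF N hS := algebraMap (RR N hS) (EF N hS)

theorem ic_inj : Function.Injective (ic hS) := IsFractionRing.injective _ _

theorem exists_frac (x : EF N hS) : ∃ a b : RR N hS, b ≠ 0 ∧ ic hS a / ic hS b = x := by
  obtain ⟨a, b, hb, h⟩ := IsFractionRing.div_surjective (A := RR N hS) x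
  exact ⟨a, b, nonZeroDivisors.ne_zero hb, h⟩

/-- the numerator -/
noncomputable def nm (x : EF N hS) : RR N hS := (exists_frac hS x).choose

/-- the denominator -/
noncomputable def dn (x : EF N hS) : RR N hS := (exists_frac hS x).choose_spec.choose

theorem dn_ne (x : EF N hS) : dn hS x ≠ 0 := (exists_frac hS x).choose_spec.choose_spec.1

theorem nm_dn (x : EF N hS) : ic hS (nm hS x) / ic hS (dn hS x) = x :=
  (exists_frac hS x).choose_spec.choose_spec.2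

/-- the modulus -/
noncomputable def AA (x : EF N hS) (z : ℂ) : ℝ :=
  ‖(nm hS x : ℂ → ℂ) z‖ / ‖(dn hS x : ℂ → ℂ) z‖

theorem ic_ne (b : RR N hS) (hb : b ≠ 0) : ic hS b ≠ 0 := fun h =>
  hb (ic_inj hS (by rw [h, map_zero]))

theorem AA_frac (a b : RR N hS) (hb : b ≠ 0) (x : EF N hS) (hx : ic hS a / ic hS b = x) :
    ∀ᶠ z in EV N, AA hS x z = ‖(a : ℂ → ℂ) z‖ / ‖(b : ℂ → ℂ) z‖ := by
  have h1 : nm hS x * b = a * dn hS x := by
    apply ic_inj hS
    rw [map_mul, map_mul]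
    have h2 := nm_dn hS x
    rw [← hx] at h2
    have h3 := ic_ne hS _ (dn_ne hS x)
    have h4 := ic_ne hS b hb
    rw [← hx]
    rw [← hx] at h3
    rw [div_eq_div_iff h3 h4] at h2
    exact h2
  filter_upwards [ev_ne' (RR.diff hS b) (RR_ne hS b hb),
    ev_ne' (RR.diff hS (dn hS x)) (RR_ne hS _ (dn_ne hS x))] with z hz1 hz2
  have h2 : (nm hS x : ℂ → ℂ) z * (b : ℂ → ℂ) z = (a : ℂ → ℂ) z * (dn hS x : ℂ → ℂ) z :=
    congrFun (congrArg Subtype.val h1) z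
  unfold AA
  rw [div_eq_div_iff (norm_ne_zero_iff.2 hz2) (norm_ne_zero_iff.2 hz1), ← norm_mul, ← norm_mul, h2]

theorem AA_ic (a : RR N hS) : ∀ᶠ z in EV N, AA hS (ic hS a) z = ‖(a : ℂ → ℂ) z‖ := by
  filter_upwards [AA_frac hS a 1 one_ne_zero (ic hS a) (by rw [map_one, div_one])] with z hz
  rw [hz]
  have : ((1 : RR N hS) : ℂ → ℂ) z = 1 := rfl
  rw [this, norm_one, div_one]

theorem AA_mul (x y : EF N hS) : ∀ᶠ z in EV N, AA hS (x * y) z = AA hS x z * AA hS y z := by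
  have h1 := AA_frac hS (nm hS x * nm hS y) (dn hS x * dn hS y)
    (mul_ne_zero (dn_ne hS x) (dn_ne hS y)) (x * y) (by
      rw [map_mul, map_mul, mul_div_mul_comm, nm_dn, nm_dn])
  filter_upwards [h1] with z hz
  rw [hz]
  have h2 : ((nm hS x * nm hS y : RR N hS) : ℂ → ℂ) z =
    (nm hS x : ℂ → ℂ) z * (nm hS y : ℂ → ℂ) z := rfl
  have h3 : ((dn hS x * dn hS y : RR N hS) : ℂ → ℂ) z =
    (dn hS x : ℂ → ℂ) z * (dn hS y : ℂ → ℂ) z := rfl
  rw [h2, h3, norm_mul, norm_mul, mul_div_mul_comm]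
  rfl

theorem AA_add (x y : EF N hS) : ∀ᶠ z in EV N, AA hS (x + y) z ≤ AA hS x z + AA hS y z := by
  have h1 := AA_frac hS (nm hS x * dn hS y + dn hS x * nm hS y) (dn hS x * dn hS y)
    (mul_ne_zero (dn_ne hS x) (dn_ne hS y)) (x + y) (by
      rw [map_add, map_mul, map_mul, map_mul, ← div_add_div _ _ (ic_ne hS _ (dn_ne hS x))
        (ic_ne hS _ (dn_ne hS y)), nm_dn, nm_dn])
  filter_upwards [h1, ev_ne' (RR.diff hS (dn hS x)) (RR_ne hS _ (dn_ne hS x)),
    ev_ne' (RR.diff hS (dn hS y)) (RR_ne hS _ (dn_ne hS y))] with z hz h4 h5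
  rw [hz]
  have h2 : ((nm hS x * dn hS y + dn hS x * nm hS y : RR N hS) : ℂ → ℂ) z =
    (nm hS x : ℂ → ℂ) z * (dn hS y : ℂ → ℂ) z + (dn hS x : ℂ → ℂ) z * (nm hS y : ℂ → ℂ) z := rfl
  have h3 : ((dn hS x * dn hS y : RR N hS) : ℂ → ℂ) z =
    (dn hS x : ℂ → ℂ) z * (dn hS y : ℂ → ℂ) z := rfl
  rw [h2, h3]
  unfold AA
  rw [div_add_div _ _ (norm_ne_zero_iff.2 h4) (norm_ne_zero_iff.2 h5), norm_mul]
  refine div_le_div_of_nonneg_right ?_ (mul_nonneg (norm_nonneg _) (norm_nonneg _))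
  refine (norm_add_le _ _).trans ?_
  rw [norm_mul, norm_mul]

theorem AA_pos (x : EF N hS) (hx : x ≠ 0) : ∀ᶠ z in EV N, 0 < AA hS x z := by
  have hn : nm hS x ≠ 0 := by
    intro h
    apply hx
    rw [← nm_dn hS x, h, map_zero, zero_div]
  filter_upwards [ev_ne' (RR.diff hS (nm hS x)) (RR_ne hS _ hn),
    ev_ne' (RR.diff hS (dn hS x)) (RR_ne hS _ (dn_ne hS x))] with z h4 h5
  exact div_pos (norm_pos_iff.2 h4) (norm_pos_iff.2 h5)

theorem algebraMap_ic (c : ℂ) : algebraMap ℂ (EF N hS) c = ic hS (algebraMap ℂ (RR N hS) c) :=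
  IsScalarTower.algebraMap_apply ℂ (RR N hS) (EF N hS) c

theorem coe_const (c : ℂ) (z : ℂ) : ((algebraMap ℂ (RR N hS) c : RR N hS) : ℂ → ℂ) z = c := rfl

end ring

end Pool.Agent.Y742.CX
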