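import Mathlib
import Pool.Agent.Y742.CX.Field

/-!
The second main theorem for bases of a space of entire functions of controlled growth.
-/

set_option autoImplicit false
set_option linter.unusedSectionVars false
set_option linter.unusedSimpArgs false

open Filter Metric Topology

namespace Pool.Agent.Y742.CX

open Pool.Agent.H159R3.NV

/-- the Wronskian -/
noncomputable def W {n : ℕ} (b : Fin n → ℂ → ℂ) (z : ℂ) : ℂ :=
  (Matrix.of fun a l : Fin n => iteratedDeriv l (b a) z).det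

theorem W_diff {n : ℕ} (b : Fin n → ℂ → ℂ) (hb : ∀ j, Differentiable ℂ (b j)) :
    Differentiable ℂ (W b) := by
  have : (W b) = fun z => ∑ σ : Equiv.Perm (Fin n), ((Equiv.Perm.sign σ : ℤ) : ℂ) *
        ∏ k : Fin n, iteratedDeriv k (b (σ k)) z := by
    funext z
    unfold W
    rw [Matrix.det_apply']
    rfl
  rw [this]
  apply Differentiable.fun_sum
  intro σ _
  apply Differentiable.const_mul
  apply Differentiable.fun_finsetProd
  intro k _
  have h := (hb (σ k)).contDiff (n := ((k : ℕ) + 1 : ℕ))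
  exact h.differentiable_iteratedDeriv k (by exact_mod_cast Nat.lt_succ_self _)

theorem W_change {n : ℕ} (b b' : Fin n → ℂ → ℂ) (hb : ∀ j, Differentiable ℂ (b j))
    (Φ : Matrix (Fin n) (Fin n) ℂ) (h : ∀ a z, b' a z = ∑ j, Φ a j * b j z) (z : ℂ) :
    W b' z = Φ.det * W b z := by
  unfold W
  rw [← Matrix.det_mul]
  congr 1
  ext a l
  rw [Matrix.mul_apply]
  simp only [Matrix.of_apply]
  have h1 : b' a = fun z => ∑ j, Φ a j * b j z := funext (h a)
  rw [h1, iteratedDeriv_fun_sum]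
  · refine Finset.sum_congr rfl fun j _ => ?_
    rw [iteratedDeriv_const_mul_field]
  · intro j _
    exact ((hb j).const_mul _).contDiff.contDiffAt

theorem W_bound {n : ℕ} (b : Fin n → ℂ → ℂ) (hb : ∀ j, Differentiable ℂ (b j)) {z : ℂ} {ε K : ℝ}
    (hε : 0 < ε) (hε1 : ε ≤ 1) (hK : 0 ≤ K)
    (h : ∀ j, ∀ w ∈ closedBall z ε, ‖b j w‖ ≤ K * ‖b j z‖) :
    ‖W b z‖ ≤ (Nat.factorial n) * (((Nat.factorial n) * K * (1 / ε) ^ n) ^ n * ∏ j, ‖b j z‖) := by
  have hder : ∀ a l : Fin n, ‖(Matrix.of fun a l : Fin n => iteratedDeriv l (b a) z) a l‖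
      ≤ (Nat.factorial n) * K * (1 / ε) ^ n * ‖b a z‖ := by
    intro a l
    simp only [Matrix.of_apply]
    have h1 := Complex.norm_iteratedDeriv_le_of_forall_mem_sphere_norm_le (n := l) (c := z) (R := ε)
      (C := K * ‖b a z‖) (f := b a) hε (hb a).diffContOnCl
      (fun w hw => h a w (sphere_subset_closedBall hw))
    refine h1.trans ?_
    have h2 : (Nat.factorial (l : ℕ) : ℝ) ≤ Nat.factorial n := by
      exact_mod_cast Nat.factorial_le l.2.le
    have h3 : 1 / ε ^ (l : ℕ) ≤ (1 / ε) ^ n := by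
      rw [one_div_pow]
      apply one_div_le_one_div_of_le (by positivity)
      exact pow_le_pow_of_le_one hε.le hε1 l.2.le
    calc (Nat.factorial (l : ℕ) : ℝ) * (K * ‖b a z‖) / ε ^ (l : ℕ)
        = (Nat.factorial (l : ℕ) : ℝ) * (K * ‖b a z‖) * (1 / ε ^ (l : ℕ)) := by ring
      _ ≤ (Nat.factorial n : ℝ) * (K * ‖b a z‖) * ((1 / ε) ^ n) := by gcongr
      _ = _ := by ring
  refine (det_bound _ _ hder).trans ?_
  rw [Finset.prod_mul_distrib, Finset.prod_const, Finset.card_univ, Fintype.card_fin]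

theorem log_small (K C ε : ℝ) (hε : 0 < ε) : ∀ᶠ x : ℝ in atTop, C + K * Real.log x ≤ ε * x := by
  have h1 := Real.isLittleO_log_id_atTop.bound (show 0 < ε / (2 * (|K| + 1)) by positivity)
  filter_upwards [h1, eventually_ge_atTop 1, eventually_ge_atTop (2 * C / ε)] with x h2 h3 h4
  have hx0 : 0 ≤ x := by linarith
  rw [Real.norm_eq_abs, Real.norm_eq_abs, id, abs_of_nonneg (Real.log_nonneg h3),
    abs_of_nonneg hx0] at h2
  have h5 : K * Real.log x ≤ (|K| + 1) * (ε / (2 * (|K| + 1)) * x) := by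
    have h6 : K * Real.log x ≤ (|K| + 1) * Real.log x := by
      have := le_abs_self K
      exact mul_le_mul_of_nonneg_right (by linarith) (Real.log_nonneg h3)
    exact h6.trans (mul_le_mul_of_nonneg_left h2 (by positivity))
  have h6 : (|K| + 1) * (ε / (2 * (|K| + 1)) * x) = ε / 2 * x := by field_simp
  rw [h6] at h5
  rw [div_le_iff₀ hε] at h4
  linarith

variable {N : ℝ → ℝ} (hS : Scale N)

theorem smt_CX (n : ℕ) (κ : Type) [Finite κ] (b : κ → Fin n → RR N hS)
    (hli : ∀ c, LinearIndependent ℂ (b c))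
    (hsp : ∀ c c', Submodule.span ℂ (Set.range (b c)) = Submodule.span ℂ (Set.range (b c')))
    (s : ℂ → κ) : Ng N (fun z => -∑ a, Real.log ‖(b (s z) a : ℂ → ℂ) z‖) := by
  classical
  have := Fintype.ofFinite κ
  obtain ⟨c0, -⟩ : ∃ c0 : κ, True := ⟨s 0, trivial⟩
  have hΦex : ∀ c a, ∃ f : Fin n → ℂ, ∑ j, f j • b c0 j = b c a := by
    intro c a
    rw [← Submodule.mem_span_range_iff_exists_fun, ← hsp c c0]
    exact Submodule.subset_span ⟨a, rfl⟩
  choose Φ0 hΦ0 using hΦex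
  have hdet : ∀ c, (Matrix.of fun a j => Φ0 c a j).det ≠ 0 := by
    intro c h
    obtain ⟨w, hw, hw2⟩ := Matrix.exists_vecMul_eq_zero_iff.2 h
    apply hw
    have h1 : ∑ a, w a • b c a = 0 := by
      have h2 : ∑ a, w a • b c a = ∑ j, (Matrix.vecMul w (Matrix.of fun a j => Φ0 c a j)) j •
          b c0 j := by
        simp only [← hΦ0 c, Matrix.vecMul, dotProduct, Matrix.of_apply, Finset.smul_sum,
          Finset.sum_smul, smul_smul]
        rw [Finset.sum_comm]
      rw [h2, hw2]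
      simp
    exact funext fun a => Fintype.linearIndependent_iff.1 (hli c) w h1 a
  have hcoe : ∀ (m : ℕ) (f : Fin m → ℂ) (g : Fin m → RR N hS) (z : ℂ),
      ((∑ j, f j • g j : RR N hS) : ℂ → ℂ) z = ∑ j, f j * (g j : ℂ → ℂ) z := by
    intro m f g z
    have h1 : ((∑ j, f j • g j : RR N hS) : ℂ → ℂ) = ∑ j, ((f j • g j : RR N hS) : ℂ → ℂ) := by
      push_cast
      rfl
    rw [h1, Finset.sum_apply]
    rfl
  let bb : κ → Fin n → ℂ → ℂ := fun c a => (b c a : ℂ → ℂ)
  have hbd : ∀ c a, Differentiable ℂ (bb c a) := fun c a => RR.diff hS _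
  have hch : ∀ c z, W (bb c) z = (Matrix.of fun a j => Φ0 c a j).det * W (bb c0) z := by
    intro c z
    refine W_change (bb c0) (bb c) (hbd c0) _ (fun a z => ?_) z
    have h1 := hcoe n (Φ0 c a) (b c0) z
    rw [hΦ0] at h1
    exact h1
  obtain ⟨x0, hx0⟩ : ∃ z, W (bb c0) z ≠ 0 := by
    apply wron_ne (bb c0) (hbd c0)
    intro f hf
    have h1 : ∑ j, f j • b c0 j = 0 := by
      apply Subtype.ext
      funext z
      rw [hcoe]
      exact hf z
    exact funext fun a => Fintype.linearIndependent_iff.1 (hli c0) f h1 a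
  have hW := W_diff (bb c0) (hbd c0)
  have hgood := LL_good (N := N) (Set.range fun p : κ × Fin n => bb p.1 p.2) (Set.finite_range _) (by
    rintro _ ⟨p, rfl⟩
    exact ⟨(b p.1 p.2).2, RR_ne hS _ ((hli p.1).ne_zero p.2)⟩)
  obtain ⟨c, hc, hcN⟩ := hS.grow
  obtain ⟨F, hF⟩ : ∃ F : ℝ, F = (Nat.factorial n : ℝ) := ⟨_, rfl⟩
  have hFpos : 0 < F := by rw [hF]; exact_mod_cast Nat.factorial_pos n
  obtain ⟨C1, hC1⟩ : ∃ C1 : ℝ, C1 = Real.log F + n * (Real.log F + 2) +
    ∑ c, |Real.log ‖(Matrix.of fun a j => Φ0 c a j).det‖| := ⟨_, rfl⟩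
  obtain ⟨C2, hC2⟩ : ∃ C2 : ℝ, C2 = C1 - L (W (bb c0)) 1 + n ^ 2 * (10 * (-Real.log c)) := ⟨_, rfl⟩
  intro ε hε
  have hlog := (LL_tendsto hS).eventually (log_small (n ^ 2 * (10 * 2)) C2 ε hε)
  filter_upwards [hgood, hlog, LL_ge 1] with r hr1 hr2 hr3
  obtain ⟨η, hη, hη1, hηb, hosc⟩ := hr1
  have hr0 : 0 < r := by linarith
  have hWint := ci_log (mero_of_diff hW) r
  refine ⟨fun z => (C1 + n ^ 2 * Real.log (1 / η)) - Real.log ‖W (bb c0) z‖,
    (circleIntegrable_const _ _ _).sub hWint, ?_, ?_⟩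
  · filter_upwards [ne_cod hW hx0 r, self_mem_codiscreteWithin _] with z hz hzs
    have hz' := sph hr0 hzs
    obtain ⟨d, hd⟩ : ∃ d, d = s z := ⟨_, rfl⟩
    rw [← hd]
    have h1 := W_bound (bb d) (hbd d) hη hη1 (Real.exp_pos 2).le (z := z)
      (fun j w hw => hosc z hz' _ ⟨(d, j), rfl⟩ w hw)
    rw [hch d z, norm_mul] at h1
    have hpos : 0 < ‖(Matrix.of fun a j => Φ0 d a j).det‖ * ‖W (bb c0) z‖ :=
      mul_pos (norm_pos_iff.2 (hdet d)) (norm_pos_iff.2 hz)
    have hb0 : ∀ j, ‖bb d j z‖ ≠ 0 := by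
      intro j h0
      have h2 : ∏ j, ‖bb d j z‖ = 0 := Finset.prod_eq_zero (Finset.mem_univ j) h0
      rw [h2, mul_zero, mul_zero] at h1
      linarith
    have h2 := Real.log_le_log hpos h1
    rw [← hF] at h2
    have hη0 : (1 / η) ^ n ≠ 0 := pow_ne_zero _ (by positivity)
    rw [Real.log_mul (norm_ne_zero_iff.2 (hdet d)) (norm_ne_zero_iff.2 hz),
      Real.log_mul hFpos.ne' (mul_ne_zero (pow_ne_zero _ (mul_ne_zero (mul_ne_zero hFpos.ne'
        (Real.exp_pos 2).ne') hη0)) (Finset.prod_ne_zero_iff.2 fun j _ => hb0 j)),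
      Real.log_mul (pow_ne_zero _ (mul_ne_zero (mul_ne_zero hFpos.ne'
        (Real.exp_pos 2).ne') hη0)) (Finset.prod_ne_zero_iff.2 fun j _ => hb0 j),
      Real.log_pow, Real.log_mul (mul_ne_zero hFpos.ne' (Real.exp_pos 2).ne') hη0,
      Real.log_mul hFpos.ne' (Real.exp_pos 2).ne', Real.log_exp, Real.log_pow,
      Real.log_prod (fun j _ => hb0 j)] at h2
    have h3 : |Real.log ‖(Matrix.of fun a j => Φ0 d a j).det‖| ≤
        ∑ c, |Real.log ‖(Matrix.of fun a j => Φ0 c a j).det‖| :=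
      Finset.single_le_sum (f := fun c => |Real.log ‖(Matrix.of fun a j => Φ0 c a j).det‖|)
        (fun _ _ => abs_nonneg _) (Finset.mem_univ d)
    have h4 := neg_abs_le (Real.log ‖(Matrix.of fun a j => Φ0 d a j).det‖)
    have h5 : ∑ a, Real.log ‖(b d a : ℂ → ℂ) z‖ = ∑ j, Real.log ‖bb d j z‖ := rfl
    rw [h5, hC1]
    have h6 : (n : ℝ) * (Real.log F + 2 + n * Real.log (1 / η)) =
        n * (Real.log F + 2) + n ^ 2 * Real.log (1 / η) := by ring
    rw [h6] at h2
    linarith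
  · rw [Real.circleAverage_fun_sub (circleIntegrable_const _ _ _) hWint, Real.circleAverage_const]
    have h1 : L (W (bb c0)) 1 ≤ L (W (bb c0)) r := L_mono hW one_pos hr3
    have h2 : Real.circleAverage (fun z => Real.log ‖W (bb c0) z‖) 0 r = L (W (bb c0)) r := rfl
    rw [h2]
    have hNr : 0 < N r := lt_of_lt_of_le one_pos (hS.one_le r)
    have h3 : Real.log (1 / η) ≤ 10 * (2 * Real.log (N r) - Real.log c) := by
      have h4 : 1 / η ≤ (N r ^ 2 / c) ^ 10 := by
        refine hηb.trans (pow_le_pow_left₀ (by positivity) ?_ 10)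
        rw [le_div_iff₀ hc]
        have := hcN r hr3
        nlinarith
      have h5 := Real.log_le_log (by positivity) h4
      rw [Real.log_pow, Real.log_div (by positivity) hc.ne', Real.log_pow] at h5
      push_cast at h5
      exact h5
    have h4 : (n : ℝ) ^ 2 * Real.log (1 / η) ≤
        n ^ 2 * (10 * (2 * Real.log (N r) - Real.log c)) :=
      mul_le_mul_of_nonneg_left h3 (by positivity)
    have h5 : (n : ℝ) ^ 2 * (10 * (2 * Real.log (N r) - Real.log c)) =
        n ^ 2 * (10 * (-Real.log c)) + n ^ 2 * (10 * 2) * Real.log (N r) := by ring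
    rw [h5] at h4
    rw [hC2] at hr2
    linarith

end Pool.Agent.Y742.CX
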