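import Mathlib
import Pool.Agent.Y742.CX.Smt

/-!
The complex instance of the dictionary.
-/

set_option autoImplicit false
set_option linter.unusedSectionVars false
set_option linter.unusedSimpArgs false

open Filter Metric Topology

namespace Pool.Agent.Y742.CX

open Pool.Agent.H159R3.NV Pool.Agent.Y742.DI

variable {N : ℝ → ℝ} (hS : Scale N)

theorem ng_mono (f g : ℂ → ℝ) (h : ∀ᶠ z in EV N, g z ≤ f z) (hf : Ng N f) : Ng N g := by
  intro ε hε
  unfold EV at h
  rw [Filter.eventually_bind] at h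
  filter_upwards [h, hf ε hε] with s h1 ⟨u, h2, h3, h4⟩
  refine ⟨u, h2, ?_, h4⟩
  filter_upwards [h1, h3] with z k1 k2
  exact k1.trans k2

theorem ng_add (f g : ℂ → ℝ) (hf : Ng N f) (hg : Ng N g) : Ng N (fun z => f z + g z) := by
  intro ε hε
  filter_upwards [hf (ε / 2) (by linarith), hg (ε / 2) (by linarith)]
    with s ⟨u, h1, h2, h3⟩ ⟨v, k1, k2, k3⟩
  refine ⟨fun z => u z + v z, h1.add k1, ?_, ?_⟩
  · filter_upwards [h2, k2] with z a1 a2
    exact add_le_add a1 a2
  · rw [Real.circleAverage_fun_add h1 k1]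
    linarith

theorem ng_smul (hS : Scale N) (f : ℂ → ℝ) (c : ℝ) (hc : 0 ≤ c) (hf : Ng N f) :
    Ng N (fun z => c * f z) := by
  intro ε hε
  have hδ : 0 < ε / (c + 1) := by positivity
  filter_upwards [hf (ε / (c + 1)) hδ] with s ⟨u, h1, h2, h3⟩
  refine ⟨fun z => c * u z, h1.const_smul (a := c), ?_, ?_⟩
  · filter_upwards [h2] with z a1
    exact mul_le_mul_of_nonneg_left a1 hc
  · have e1 : Real.circleAverage (fun z => c * u z) 0 s = c * Real.circleAverage u 0 s := by
      simp only [← smul_eq_mul]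
      rw [Real.circleAverage_fun_smul]
    rw [e1]
    have h4 := mul_le_mul_of_nonneg_left h3 hc
    have hN := hS.one_le s
    have h5 : c * (ε / (c + 1) * N s) = c / (c + 1) * (ε * N s) := by field_simp
    have h6 : c / (c + 1) ≤ 1 := by
      rw [div_le_one (by linarith)]
      linarith
    have h7 : c / (c + 1) * (ε * N s) ≤ ε * N s :=
      mul_le_of_le_one_left (by positivity) h6
    linarith

theorem ng_const (hS : Scale N) (c : ℝ) : Ng N (fun _ => c) := by
  intro ε hε
  filter_upwards [(LL_tendsto hS).eventually_ge_atTop (c / ε)] with s h1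
  rw [div_le_iff₀ hε] at h1
  refine ⟨fun _ => c, circleIntegrable_const _ _ _, Filter.Eventually.of_forall fun _ => le_rfl, ?_⟩
  rw [Real.circleAverage_const]
  linarith

/-- functions with a bound for the averages -/
theorem ng_of_bound (hS : Scale N) (f : ℂ → ℝ) (C : ℝ) (hf : ∀ s, 1 ≤ s → CircleIntegrable f 0 s ∧
    Real.circleAverage f 0 s ≤ C) : Ng N f := by
  intro ε hε
  filter_upwards [(LL_tendsto hS).eventually_ge_atTop (C / ε), LL_ge 1] with s h1 h2
  rw [div_le_iff₀ hε] at h1
  obtain ⟨h3, h4⟩ := hf s h2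
  exact ⟨f, h3, Filter.Eventually.of_forall fun _ => le_rfl, by linarith⟩

theorem avg_abs_le (hS : Scale N) (a : RR N hS) : ∃ C, ∀ s, 1 ≤ s →
    Real.circleAverage (fun z => |Real.log ‖(a : ℂ → ℂ) z‖|) 0 s ≤ C * N s := by
  obtain ⟨C, hC, h1⟩ := a.2.2
  refine ⟨2 * C + |L (a : ℂ → ℂ) 1|, fun s hs => ?_⟩
  rw [avg_abs_log (mero_of_diff (RR.diff hS a))]
  have h2 := h1 s hs
  have h3 : L (a : ℂ → ℂ) 1 ≤ L (a : ℂ → ℂ) s := L_mono (RR.diff hS a) one_pos hs
  have h4 := neg_abs_le (L (a : ℂ → ℂ) 1)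
  have h5 : |L (a : ℂ → ℂ) 1| ≤ |L (a : ℂ → ℂ) 1| * N s :=
    le_mul_of_one_le_right (abs_nonneg _) (hS.one_le s)
  have h6 : Real.circleAverage (fun z => Real.posLog ‖(a : ℂ → ℂ) z‖) 0 s =
    mf (a : ℂ → ℂ) s := rfl
  rw [h6]
  linarith

theorem bdd_CX (x : EF N hS) (hx : x ≠ 0) :
    ∃ C : ℝ, Ng N (fun z => |Real.log (AA hS x z)| - C * N ‖z‖) := by
  have hn : nm hS x ≠ 0 := by
    intro h
    apply hx
    rw [← nm_dn hS x, h, map_zero, zero_div]
  obtain ⟨C1, h1⟩ := avg_abs_le hS (nm hS x)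
  obtain ⟨C2, h2⟩ := avg_abs_le hS (dn hS x)
  refine ⟨C1 + C2, fun ε hε => ?_⟩
  filter_upwards [LL_ge 1] with s hs
  have i1 : CircleIntegrable (fun z => |Real.log ‖(nm hS x : ℂ → ℂ) z‖|) 0 s :=
    (ci_log (mero_of_diff (RR.diff hS (nm hS x))) s).abs
  have i2 : CircleIntegrable (fun z => |Real.log ‖(dn hS x : ℂ → ℂ) z‖|) 0 s :=
    (ci_log (mero_of_diff (RR.diff hS (dn hS x))) s).abs
  refine ⟨fun z => (|Real.log ‖(nm hS x : ℂ → ℂ) z‖| + |Real.log ‖(dn hS x : ℂ → ℂ) z‖|) -
    (C1 + C2) * N s, (i1.add i2).sub (circleIntegrable_const _ _ _), ?_, ?_⟩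
  · obtain ⟨x1, hx1⟩ := RR_ne hS _ hn
    obtain ⟨x2, hx2⟩ := RR_ne hS _ (dn_ne hS x)
    filter_upwards [ne_cod (RR.diff hS (nm hS x)) hx1 s, ne_cod (RR.diff hS (dn hS x)) hx2 s,
      self_mem_codiscreteWithin _] with z k1 k2 k3
    rw [sph (by linarith) k3]
    unfold AA
    rw [Real.log_div (norm_ne_zero_iff.2 k1) (norm_ne_zero_iff.2 k2)]
    have := abs_sub (Real.log ‖(nm hS x : ℂ → ℂ) z‖) (Real.log ‖(dn hS x : ℂ → ℂ) z‖)
    linarith
  · have i3 : CircleIntegrable (fun z => |Real.log ‖(nm hS x : ℂ → ℂ) z‖| +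
      |Real.log ‖(dn hS x : ℂ → ℂ) z‖|) 0 s := i1.add i2
    rw [Real.circleAverage_fun_sub i3 (circleIntegrable_const _ _ _),
      Real.circleAverage_fun_add i1 i2, Real.circleAverage_const]
    have k1 := h1 s hs
    have k2 := h2 s hs
    have hN := hS.one_le s
    have : 0 ≤ ε * N s := by positivity
    linarith

/-- entire functions without zeros are exponentials -/
theorem exists_exp (f : ℂ → ℂ) (hf : Differentiable ℂ f) (h : ∀ z, f z ≠ 0) :
    ∃ G : ℂ → ℂ, Differentiable ℂ G ∧ ∀ z, f z = Complex.exp (G z) := by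
  have hA : Differentiable ℂ (fun z => deriv f z / f z) := by
    refine Differentiable.div ?_ hf h
    have h1 := hf.contDiff (n := 2)
    exact h1.differentiable_deriv_two
  obtain ⟨G, hG0, hG⟩ := hA.isExactOn_univ.with_val_at 0 (Complex.log (f 0))
  have hGd : Differentiable ℂ G := fun z => (hG z (Set.mem_univ z)).differentiableAt
  refine ⟨G, hGd, ?_⟩
  have h2 : ∀ z, HasDerivAt (fun w => f w * Complex.exp (-G w)) 0 z := by
    intro z
    have h3 := (hf z).hasDerivAt.mul ((hG z (Set.mem_univ z)).neg).cexp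
    have e : deriv f z * Complex.exp (-G z) + f z * (Complex.exp (-G z) * -(deriv f z / f z)) = 0 := by
      field_simp [h z]
      ring
    exact h3.congr_deriv e
  have h3 : ∀ z, f z * Complex.exp (-G z) = f 0 * Complex.exp (-G 0) := fun z =>
    is_const_of_deriv_eq_zero (fun w => (h2 w).differentiableAt) (fun w => (h2 w).deriv) z 0
  intro z
  have h4 := h3 z
  rw [hG0, Complex.exp_neg (Complex.log (f 0)), Complex.exp_log (h 0), mul_inv_cancel₀ (h 0),
    Complex.exp_neg] at h4
  have h5 := Complex.exp_ne_zero (G z)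
  field_simp at h4
  exact h4

/-- Borel's theorem -/
theorem borel_ind {n : ℕ} (f : Fin n → ℂ → ℂ) (hf : ∀ i, Differentiable ℂ (f i))
    (h0 : ∀ i z, f i z ≠ 0) (hr : ∀ i j, i ≠ j → ∀ c : ℂ, ¬ ∀ z, f i z = c * f j z)
    (c : Fin n → ℂ) (h : ∀ z, ∑ i, c i * f i z = 0) : c = 0 := by
  classical
  choose G hG hfG using fun i => exists_exp (f i) (hf i) (h0 i)
  have h1 := Pool.Agent.H159R3.Exp.borel_spec (B := Fin n → ℂ) G hG
    (fun i => (Pi.single i 1 : Fin n → ℂ)) (by
    intro i j a ha
    rcases eq_or_ne i j with rfl | hij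
    · have h2 : a = 0 := by
        have := ha 0
        linear_combination -this
      rw [h2, Complex.exp_zero, one_smul]
    · exfalso
      apply hr i j hij (Complex.exp a)
      intro z
      rw [hfG, hfG, ha z, Complex.exp_add, mul_comm]) Finset.univ c (by
    intro z
    rw [← h z]
    exact Finset.sum_congr rfl fun i _ => by rw [hfG])
  funext i
  have h2 := congrFun h1 i
  rw [Finset.sum_apply] at h2
  rw [Finset.sum_eq_single i] at h2
  · simpa using h2
  · intro j _ hj
    rw [Pi.smul_apply, Pi.single_eq_of_ne (Ne.symm hj), smul_zero]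
  · intro h
    exact absurd (Finset.mem_univ _) h

/-- the dictionary -/
noncomputable def cxDict : Dict ℂ (EF N hS) where
  Ω := ℂ
  ev := EV N
  A x z := AA hS x z
  Neg := Ng N
  one z := N ‖z‖
  R := (ic hS).range
  U :=
    { carrier := {u | (u : EF N hS) ∈ (ic hS).range ∧ ((u⁻¹ : (EF N hS)ˣ) : EF N hS) ∈ (ic hS).range}
      mul_mem' := by
        rintro u v ⟨h1, h2⟩ ⟨h3, h4⟩
        constructor
        · rw [Units.val_mul]
          exact (ic hS).range.mul_mem h1 h3
        · rw [mul_inv, Units.val_mul]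
          exact (ic hS).range.mul_mem h2 h4
      one_mem' := by
        have h1 : ((1 : (EF N hS)ˣ) : EF N hS) ∈ (ic hS).range := by
          rw [Units.val_one]
          exact (ic hS).range.one_mem
        refine ⟨h1, ?_⟩
        rw [inv_one]
        exact h1
      inv_mem' := by
        rintro u ⟨h1, h2⟩
        refine ⟨h2, ?_⟩
        rw [inv_inv]
        exact h1 }
  A_zero := by
    filter_upwards [AA_ic hS 0] with z hz
    rw [map_zero] at hz
    rw [hz]
    have : ((0 : RR N hS) : ℂ → ℂ) z = 0 := rfl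
    rw [this, norm_zero]
  A_pos := AA_pos hS
  A_mul := AA_mul hS
  A_add := AA_add hS
  A_const := by
    intro c
    refine ⟨‖c‖, ?_⟩
    filter_upwards [AA_ic hS (algebraMap ℂ (RR N hS) c)] with z hz
    rw [algebraMap_ic, hz, coe_const]
  neg_mono := ng_mono
  neg_add := ng_add
  neg_smul := ng_smul hS
  neg_const := ng_const hS
  one_nonneg := Filter.Eventually.of_forall fun z => by
    have := hS.one_le ‖z‖
    linarith
  arch := by
    intro f hf ε hε
    filter_upwards [hf (ε / 2) (by linarith) (ε / 2) (by linarith), LL_ge 1]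
      with s ⟨u, h1, h2, h3⟩ hs
    refine ⟨fun z => u z + ε / 2 * N s, h1.add (circleIntegrable_const _ _ _), ?_, ?_⟩
    · filter_upwards [h2, self_mem_codiscreteWithin _] with z k1 k2
      rw [sph (by linarith) k2] at k1
      linarith
    · rw [Real.circleAverage_fun_add h1 (circleIntegrable_const _ _ _), Real.circleAverage_const]
      linarith
  bdd := bdd_CX hS
  const_mem := fun c => ⟨algebraMap ℂ (RR N hS) c, (algebraMap_ic hS c).symm⟩
  unit_mem := fun u hu => hu.1
  const_unit := by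
    rintro u ⟨c, hc⟩
    refine ⟨⟨algebraMap ℂ (RR N hS) c, ?_⟩, ⟨algebraMap ℂ (RR N hS) c⁻¹, ?_⟩⟩
    · rw [← hc, algebraMap_ic]
    · rw [Units.val_inv_eq_inv_val, ← hc, ← map_inv₀, algebraMap_ic]
  unit_neg := by
    rintro u ⟨⟨a, ha⟩, ⟨b, hb⟩⟩
    have hab : a * b = 1 := by
      apply ic_inj hS
      rw [map_mul, map_one, ha, hb, Units.mul_inv]
    have hab' : ∀ z, (a : ℂ → ℂ) z * (b : ℂ → ℂ) z = 1 := fun z =>
      congrFun (congrArg Subtype.val hab) z
    refine ng_mono _ _ ?_ (ng_of_bound hS (fun z => Real.log ‖(a : ℂ → ℂ) z‖)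
      (-L (b : ℂ → ℂ) 1) (fun s hs => ⟨ci_log (mero_of_diff (RR.diff hS a)) s, ?_⟩))
    · filter_upwards [AA_ic hS a] with z hz
      rw [← ha, hz]
    · have h1 : L (b : ℂ → ℂ) 1 ≤ L (b : ℂ → ℂ) s := L_mono (RR.diff hS b) one_pos hs
      have h2 : L (fun z => (a : ℂ → ℂ) z * (b : ℂ → ℂ) z) s = L (a : ℂ → ℂ) s + L (b : ℂ → ℂ) s :=
        L_mul (RR.diff hS a) (RR.diff hS b) (x := 0) (y := 0)
          (left_ne_zero_of_mul (a := (a : ℂ → ℂ) 0) (by rw [hab' 0]; exact one_ne_zero))
          (right_ne_zero_of_mul (a := (a : ℂ → ℂ) 0) (by rw [hab' 0]; exact one_ne_zero))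
          (by linarith)
      have h3 : L (fun z => (a : ℂ → ℂ) z * (b : ℂ → ℂ) z) s = 0 := by
        simp only [hab']
        unfold L
        simp [Real.circleAverage_const]
      have h4 : Real.circleAverage (fun z => Real.log ‖(a : ℂ → ℂ) z‖) 0 s = L (a : ℂ → ℂ) s := rfl
      rw [h4]
      linarith
  smt := by
    intro n κ _ B hli hsp hR s
    choose b hb using hR
    have hB : ∀ c, B c = fun a => ic hS (b c a) := fun c => funext fun a => (hb c a).symm
    let icl : RR N hS →ₗ[ℂ] EF N hS := (IsScalarTower.toAlgHom ℂ (RR N hS) (EF N hS)).toLinearMap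
    have hicl : ∀ x, icl x = ic hS x := fun x => rfl
    have hinj : LinearMap.ker icl = ⊥ := LinearMap.ker_eq_bot.2 (ic_inj hS)
    have hli' : ∀ c, LinearIndependent ℂ (b c) := by
      intro c
      have h1 := hli c
      rw [hB c] at h1
      exact LinearIndependent.of_comp icl h1
    have hsp' : ∀ c c', Submodule.span ℂ (Set.range (b c)) =
        Submodule.span ℂ (Set.range (b c')) := by
      intro c c'
      apply Submodule.map_injective_of_injective (LinearMap.ker_eq_bot.1 hinj)
      rw [Submodule.map_span, Submodule.map_span, ← Set.range_comp, ← Set.range_comp]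
      have h1 := hsp c c'
      rw [hB c, hB c'] at h1
      exact h1
    have h1 := smt_CX hS n κ b hli' hsp' s
    refine ng_mono _ _ ?_ h1
    have h2 : ∀ᶠ z in EV N, ∀ c a, AA hS (B c a) z = ‖(b c a : ℂ → ℂ) z‖ := by
      rw [Filter.eventually_all]
      intro c
      rw [Filter.eventually_all]
      intro a
      rw [← hb c a]
      exact AA_ic hS (b c a)
    filter_upwards [h2] with z hz
    simp only [hz]
    exact le_rfl
  unit_eq := by
    intro n u hu hr
    rw [Fintype.linearIndependent_iff]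
    intro g hg i
    choose a ha using fun i => (hu i).1
    choose b hb using fun i => (hu i).2
    have hab : ∀ i z, (a i : ℂ → ℂ) z * (b i : ℂ → ℂ) z = 1 := by
      intro i z
      have h1 : a i * b i = 1 := by
        apply ic_inj hS
        rw [map_mul, map_one, ha, hb, Units.mul_inv]
      exact congrFun (congrArg Subtype.val h1) z
    have h1 := borel_ind (fun i => (a i : ℂ → ℂ)) (fun i => RR.diff hS (a i)) (fun i z =>
      left_ne_zero_of_mul (by rw [hab i z]; exact one_ne_zero)) (fun i j hij c hc => by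
        apply hr i j hij
        refine ⟨c, ?_⟩
        have h2 : a i = algebraMap ℂ (RR N hS) c * a j := Subtype.ext (funext hc)
        rw [Units.val_div_eq_div_val, ← ha i, ← ha j, h2, map_mul, ← algebraMap_ic,
          mul_div_assoc, div_self, mul_one]
        rw [ha j]
        exact (u j).ne_zero) g (by
        intro z
        have h2 : ∑ i, g i • a i = 0 := by
          apply ic_inj hS
          rw [map_sum, map_zero, ← hg]
          refine Finset.sum_congr rfl fun i _ => ?_
          rw [Algebra.smul_def, map_mul, ← algebraMap_ic, ha, Algebra.smul_def]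
        have h3 : ((∑ i, g i • a i : RR N hS) : ℂ → ℂ) = ∑ i, ((g i • a i : RR N hS) : ℂ → ℂ) := by
          push_cast
          rfl
        have h4 := congrFun (h3.symm.trans (congrArg Subtype.val h2)) z
        rw [Finset.sum_apply] at h4
        exact h4)
    exact congrFun h1 i
  tf := by
    rintro x n hn ⟨c, hc⟩
    have hint : IsIntegral ℂ x := by
      refine ⟨Polynomial.X ^ n - Polynomial.C c, Polynomial.monic_X_pow_sub_C c hn.ne', ?_⟩
      rw [Polynomial.eval₂_sub, Polynomial.eval₂_pow, Polynomial.eval₂_X, Polynomial.eval₂_C, hc,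
        sub_self]
    exact minpoly.mem_range_of_degree_eq_one ℂ x
      (IsAlgClosed.degree_eq_one_of_irreducible ℂ (minpoly.irreducible hint))

end Pool.Agent.Y742.CX
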