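import Mathlib
import Pool.Agent.Y742.CX.Inst
import Pool.Agent.Y742.DI.Main
import Pool.Agent.Y742.DI.Desc
import Pool.Agent.W235.RM.Final

/-!
Entire curves give Laurent curves.
-/

set_option autoImplicit false
set_option linter.unusedSectionVars false
set_option linter.unusedSimpArgs false

open Filter Metric Topology MvPolynomial

namespace Pool.Agent.Y742.CX

open Pool.Agent.H159R3.NV Pool.Agent.Y742.DI
open Pool.Agent.H159R3.Exp Pool.Agent.W235.RM
open scoped NumberField

/-- lower bound for the growth of functions without zeros -/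
theorem grow_unit (k : ℂ → ℂ) (hk : Differentiable ℂ k) (h0 : ∀ z, k z ≠ 0)
    (hnc : ∃ z w, k z ≠ k w) : ∃ c R0 : ℝ, 0 < c ∧ 1 ≤ R0 ∧ ∀ R, R0 ≤ R →
      c * R ≤ Real.circleAverage (fun z => |Real.log ‖k z‖|) 0 R := by
  obtain ⟨w, z, hwz⟩ : ∃ w z, ‖k w‖ ≠ ‖k z‖ := by
    by_contra hcon
    push Not at hcon
    obtain ⟨z, w, hzw⟩ := hnc
    apply hzw
    apply hk.apply_eq_apply_of_bounded
    rw [isBounded_iff_forall_norm_le]
    refine ⟨‖k 0‖, ?_⟩
    rintro _ ⟨x, rfl⟩
    exact (hcon x 0).le
  obtain ⟨d, hd⟩ : ∃ d : ℝ, d = |Real.log ‖k w‖ - Real.log ‖k z‖| := ⟨_, rfl⟩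
  have hd0 : 0 < d := by
    rw [hd, abs_pos, sub_ne_zero]
    intro h
    exact hwz (Real.log_injOn_pos (Set.mem_Ioi.2 (norm_pos_iff.2 (h0 w)))
      (Set.mem_Ioi.2 (norm_pos_iff.2 (h0 z))) h)
  have hwz0 : 0 < ‖w - z‖ := by
    rw [norm_pos_iff, sub_ne_zero]
    rintro rfl
    exact hwz rfl
  refine ⟨d / (8 * ‖w - z‖), 1 + 2 * ‖w‖ + 2 * ‖z‖, by positivity, by
    have := norm_nonneg w
    have := norm_nonneg z
    linarith, fun R hR => ?_⟩
  have hw := norm_nonneg w
  have hz := norm_nonneg z
  have hR0 : 0 < R := by linarith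
  have h1 := poisson_diff (k := k) (R := R) (δ := R / 2) hR0 (by linarith)
    (fun z _ => hk.analyticAt z) (fun z _ => h0 z) (w := w) (z := z) (by linarith) (by linarith)
  rw [← hd] at h1
  have h2 : 2 * R * ‖w - z‖ / (R / 2) ^ 2 = 8 * ‖w - z‖ / R := by
    field_simp
    ring
  rw [h2] at h1
  rw [div_mul_eq_mul_div, div_le_iff₀ (by positivity)]
  have h3 := mul_le_mul_of_nonneg_right h1 hR0.le
  have h4 : 8 * ‖w - z‖ / R * Real.circleAverage (fun ζ => |Real.log ‖k ζ‖|) 0 R * R =
      Real.circleAverage (fun ζ => |Real.log ‖k ζ‖|) 0 R * (8 * ‖w - z‖) := by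
    field_simp
  rw [h4] at h3
  exact h3

theorem mf_mono {g : ℂ → ℂ} (hg : Differentiable ℂ g) {r s : ℝ} (hr : 0 < r) (hrs : r ≤ s) :
    mf g r ≤ mf g s := by
  rw [← T2_one, ← T2_one]
  exact T2_mono (differentiable_const _) (x := 0) one_ne_zero hg hr hrs

theorem abs_avg_eq {k k' : ℂ → ℂ} (hk : Differentiable ℂ k) (hk' : Differentiable ℂ k')
    (h : ∀ z, k z * k' z = 1) (r : ℝ) :
    Real.circleAverage (fun z => |Real.log ‖k z‖|) 0 r = mf k r + mf k' r := by
  have e : (fun z => |Real.log ‖k z‖|) = fun z => Real.posLog ‖k z‖ + Real.posLog ‖k' z‖ := by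
    funext z
    have h1 : ‖k' z‖ = ‖k z‖⁻¹ := by
      have h2 := h z
      have h3 : ‖k z‖ * ‖k' z‖ = 1 := by rw [← norm_mul, h2, norm_one]
      exact (inv_eq_of_mul_eq_one_right h3).symm
    rw [h1]
    have h2 : Real.posLog ‖k z‖ - Real.posLog ‖k z‖⁻¹ = Real.log ‖k z‖ :=
      Real.posLog_sub_posLog_inv
    have h3 : Real.posLog ‖k z‖ = (1 / 2) * (Real.log ‖k z‖ + |Real.log ‖k z‖|) := by
      rw [← Real.half_mul_log_add_log_abs]
      ring
    linarith
  rw [e, Real.circleAverage_fun_add (ci_posLog (mero_of_diff hk) r)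
    (ci_posLog (mero_of_diff hk') r)]
  rfl

/-- quotients of functions of controlled growth -/
theorem Gr.quot {N : ℝ → ℝ} (hS : Scale N) (A B : RR N hS) (hB : B ≠ 0) (f : ℂ → ℂ)
    (hf : Differentiable ℂ f) (h : ∀ z, f z * (B : ℂ → ℂ) z = (A : ℂ → ℂ) z) : Gr N f := by
  obtain ⟨C, hC, h1⟩ := A.2.2
  obtain ⟨C', hC', h2⟩ := B.2.2
  refine ⟨hf, C + C' + |L (B : ℂ → ℂ) 1|, by positivity, fun r hr => ?_⟩
  obtain ⟨x, hx⟩ := RR_ne hS B hB
  have hr0 : 0 < r := by linarith
  have iA := ci_posLog (mero_of_diff (RR.diff hS A)) r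
  have iB := ci_posLog (mero_of_diff (RR.diff hS B)) r
  have iL := ci_log (mero_of_diff (RR.diff hS B)) r
  have i2 : CircleIntegrable (fun z => Real.posLog ‖(A : ℂ → ℂ) z‖ + Real.posLog ‖(B : ℂ → ℂ) z‖)
      0 r := iA.add iB
  have h3 : mf f r ≤ Real.circleAverage (fun z => (Real.posLog ‖(A : ℂ → ℂ) z‖ +
      Real.posLog ‖(B : ℂ → ℂ) z‖) - Real.log ‖(B : ℂ → ℂ) z‖) 0 r := by
    refine avg_le_cod (ci_posLog (mero_of_diff hf) r) (i2.sub iL) hr0.ne' ?_
    filter_upwards [ne_cod (RR.diff hS B) hx r] with z hz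
    have h4 : ‖f z‖ = ‖(A : ℂ → ℂ) z‖ * ‖(B : ℂ → ℂ) z‖⁻¹ := by
      rw [← h z, norm_mul, mul_assoc, mul_inv_cancel₀ (norm_ne_zero_iff.2 hz), mul_one]
    have h5 : Real.posLog ‖(B : ℂ → ℂ) z‖ - Real.posLog ‖(B : ℂ → ℂ) z‖⁻¹ =
      Real.log ‖(B : ℂ → ℂ) z‖ := Real.posLog_sub_posLog_inv
    rw [h4]
    have h6 : Real.posLog (‖(A : ℂ → ℂ) z‖ * ‖(B : ℂ → ℂ) z‖⁻¹) ≤
      Real.posLog ‖(A : ℂ → ℂ) z‖ + Real.posLog ‖(B : ℂ → ℂ) z‖⁻¹ := Real.posLog_mul
    linarith
  rw [Real.circleAverage_fun_sub i2 iL, Real.circleAverage_fun_add iA iB] at h3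
  have h4 : L (B : ℂ → ℂ) 1 ≤ L (B : ℂ → ℂ) r := L_mono (RR.diff hS B) one_pos hr
  have h5 : Real.circleAverage (fun z => Real.posLog ‖(A : ℂ → ℂ) z‖) 0 r = mf (A : ℂ → ℂ) r := rfl
  have h6 : Real.circleAverage (fun z => Real.posLog ‖(B : ℂ → ℂ) z‖) 0 r = mf (B : ℂ → ℂ) r := rfl
  have h7 : Real.circleAverage (fun z => Real.log ‖(B : ℂ → ℂ) z‖) 0 r = L (B : ℂ → ℂ) r := rfl
  rw [h5, h6, h7] at h3
  have h8 := h1 r hr
  have h9 := h2 r hr
  have h10 := neg_abs_le (L (B : ℂ → ℂ) 1)
  have h11 : |L (B : ℂ → ℂ) 1| ≤ |L (B : ℂ → ℂ) 1| * N r :=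
    le_mul_of_one_le_right (abs_nonneg _) (hS.one_le r)
  linarith

/-- the inclusion of the rings -/
noncomputable def incE {N : ℝ → ℝ} (hS : Scale N) : RR N hS →+* Ent where
  toFun f := ⟨f, f.2.1⟩
  map_one' := rfl
  map_mul' _ _ := rfl
  map_zero' := rfl
  map_add' _ _ := rfl

theorem incE_inj {N : ℝ → ℝ} (hS : Scale N) : Function.Injective (incE hS) := by
  intro f g h
  apply Subtype.ext
  exact congrArg (fun x : Ent => (x : ℂ → ℂ)) h

/-- the field of meromorphic functions -/
def ME : Type := FractionRing Ent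

noncomputable instance : Field ME := inferInstanceAs (Field (FractionRing Ent))

noncomputable instance : Algebra ℂ ME := inferInstanceAs (Algebra ℂ (FractionRing Ent))

/-- the inclusion -/
noncomputable def icE : Ent →ₐ[ℂ] ME := IsScalarTower.toAlgHom ℂ Ent (FractionRing Ent)

theorem icE_inj : Function.Injective icE := IsFractionRing.injective Ent (FractionRing Ent)

/-- the inclusion of the fields -/
noncomputable def incF {N : ℝ → ℝ} (hS : Scale N) : EF N hS →+* ME :=
  IsFractionRing.lift (g := (icE : Ent →+* ME).comp (incE hS))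
    (icE_inj.comp (incE_inj hS))

theorem incF_ic {N : ℝ → ℝ} (hS : Scale N) (a : RR N hS) :
    incF hS (ic hS a) = icE (incE hS a) :=
  IsFractionRing.lift_algebraMap _ a

/-- evaluation of entire functions -/
noncomputable def evz (z : ℂ) : Ent →ₐ[ℂ] ℂ := (Pi.evalAlgHom ℂ (fun _ : ℂ => ℂ) z).comp Ent.val

/-- the Laurent curve through a generic point of an entire curve -/
theorem entire_curve {ι : Type} {n : ℕ} (F : ι → MvPolynomial (Fin n) ℂ)
    (I : Finset (Fin n)) (hF : ∀ i, LinOut I (F i)) (f : ℂ → Fin n → ℂ)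
    (hf : ∀ a, Differentiable ℂ fun z => f z a) (hI : ∀ a ∈ I, ∀ z, f z a ≠ 0)
    (hFf : ∀ i z, aeval (f z) (F i) = 0) (hnc : ∃ z w, f z ≠ f w) :
    ∃ (E : Type) (_ : Field E) (_ : CharZero E) (_ : Algebra ℂ E) (z' : Fin n → E)
      (ψ : E →+* ME), (∀ a, ψ (z' a) = icE ⟨_, hf a⟩) ∧
      (∀ c, ψ (algebraMap ℂ E c) = algebraMap ℂ ME c) ∧ LCurve F z' := by
  classical
  let fE : Fin n → Ent := fun a => ⟨fun z => f z a, hf a⟩
  let z : Fin n → ME := fun a => icE (fE a)
  have hchar0 : CharZero ME := charZero_of_injective_algebraMap (algebraMap ℂ ME).injective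
  have hFz : ∀ i, aeval z (F i) = 0 := by
    intro i
    have h1 : aeval fE (F i) = 0 := by
      apply Subtype.ext
      funext w
      have h2 : evz w (aeval fE (F i)) = aeval (fun a => evz w (fE a)) (F i) :=
        comp_aeval_apply _ (evz w) (F i)
      exact h2.trans (hFf i w)
    have h3 : aeval z (F i) = icE (aeval fE (F i)) := (comp_aeval_apply _ icE (F i)).symm
    rw [h3, h1, map_zero]
  by_cases hconst : ∀ a ∈ I, ∃ c : ℂ, ∀ w, f w a = c
  · rcases line_or_field (P := ℂ) F I hF z (fun a ha => by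
      obtain ⟨c, hc⟩ := hconst a ha
      refine ⟨c, ?_⟩
      show algebraMap ℂ ME c = icE (fE a)
      rw [← icE.commutes]
      congr 1
      exact Subtype.ext (funext fun w => (hc w).symm)) hFz with h | ⟨z', hz1, -⟩
    · exact ⟨ME, inferInstance, hchar0, inferInstance, z, RingHom.id _, fun a => rfl,
        fun c => rfl, h⟩
    · exfalso
      obtain ⟨x, y, hxy⟩ := hnc
      apply hxy
      have h1 : ∀ a w, f w a = z' a := by
        intro a w
        have h2 := hz1 a
        rw [← icE.commutes] at h2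
        have h3 := icE_inj h2
        exact (congrFun (congrArg Subtype.val h3) w).symm
      funext a
      rw [h1, h1]
  · push Not at hconst
    obtain ⟨a0, ha0, hca0⟩ := hconst
    -- the inverses
    let fi : Fin n → ℂ → ℂ := fun a w => if a ∈ I then (f w a)⁻¹ else 0
    have hfi : ∀ a, Differentiable ℂ (fi a) := by
      intro a
      by_cases ha : a ∈ I
      · have : fi a = fun w => (f w a)⁻¹ := by
          funext w
          simp only [fi, if_pos ha]
        rw [this]
        exact (hf a).inv (hI a ha)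
      · have : fi a = fun w => 0 := by
          funext w
          simp only [fi, if_neg ha]
        rw [this]
        exact differentiable_const _
    have hfi1 : ∀ a ∈ I, ∀ w, f w a * fi a w = 1 := by
      intro a ha w
      simp only [fi, if_pos ha]
      exact mul_inv_cancel₀ (hI a ha w)
    -- the scale
    obtain ⟨N, hN⟩ : ∃ N : ℝ → ℝ, N = fun r => 1 + ∑ a ∈ I, (mf (fun w => f w a) r + mf (fi a) r) :=
      ⟨_, rfl⟩
    have hNI : ∀ r, N r = 1 + ∑ a ∈ I, Real.circleAverage (fun w => |Real.log ‖f w a‖|) 0 r := by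
      intro r
      rw [hN]
      simp only
      congr 1
      exact Finset.sum_congr rfl fun a ha => (abs_avg_eq (hf a) (hfi a) (hfi1 a ha) r).symm
    have hle : ∀ a ∈ I, ∀ r, mf (fun w => f w a) r + mf (fi a) r ≤ N r := by
      intro a ha r
      have h1 := Finset.single_le_sum (f := fun a => mf (fun w => f w a) r + mf (fi a) r)
        (fun _ _ => add_nonneg (mf_nonneg _ _) (mf_nonneg _ _)) ha
      rw [hN]
      simp only at h1 ⊢
      linarith
    have hS : Scale N := by
      refine ⟨fun r => ?_, fun r s hr hrs => ?_, ?_⟩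
      · rw [hN]
        have : 0 ≤ ∑ a ∈ I, (mf (fun w => f w a) r + mf (fi a) r) :=
          Finset.sum_nonneg fun _ _ => add_nonneg (mf_nonneg _ _) (mf_nonneg _ _)
        simp only
        linarith
      · rw [hN]
        have := Finset.sum_le_sum fun a (_ : a ∈ I) =>
          add_le_add (mf_mono (hf a) hr hrs) (mf_mono (hfi a) hr hrs)
        simp only
        linarith
      · obtain ⟨c, R0, hc, hR0, hcR⟩ := grow_unit (fun w => f w a0) (hf a0) (hI a0 ha0) (by
          by_contra hcon
          push Not at hcon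
          obtain ⟨w, hw⟩ := hca0 (f 0 a0)
          exact hw (hcon w 0))
        refine ⟨min c (1 / R0), lt_min hc (by positivity), fun r hr => ?_⟩
        rcases le_or_gt R0 r with h | h
        · have h1 := hcR r h
          rw [abs_avg_eq (hf a0) (hfi a0) (hfi1 a0 ha0)] at h1
          have h2 := hle a0 ha0 r
          have h3 : min c (1 / R0) * r ≤ c * r :=
            mul_le_mul_of_nonneg_right (min_le_left _ _) (by linarith)
          linarith
        · have h1 : min c (1 / R0) * r ≤ 1 / R0 * R0 :=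
            mul_le_mul (min_le_right _ _) h.le (by linarith) (by positivity)
          have h2 : 1 / R0 * R0 = 1 := by field_simp
          have h3 : 1 ≤ N r := by
            rw [hN]
            have : 0 ≤ ∑ a ∈ I, (mf (fun w => f w a) r + mf (fi a) r) :=
              Finset.sum_nonneg fun _ _ => add_nonneg (mf_nonneg _ _) (mf_nonneg _ _)
            simp only
            linarith
          linarith
    have hGr : ∀ a ∈ I, Gr N (fun w => f w a) := fun a ha =>
      ⟨hf a, 1, zero_le_one, fun r _ => by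
        have h1 := hle a ha r
        have h2 := mf_nonneg (fi a) r
        linarith⟩
    have hGri : ∀ a ∈ I, Gr N (fi a) := fun a ha =>
      ⟨hfi a, 1, zero_le_one, fun r _ => by
        have h1 := hle a ha r
        have h2 := mf_nonneg (fun w => f w a) r
        linarith⟩
    let _ : Algebra (EF N hS) ME := (incF hS).toAlgebra
    have halg : ∀ x, algebraMap (EF N hS) ME x = incF hS x := fun x => rfl
    have hconst' : ∀ c : ℂ, incF hS (algebraMap ℂ (EF N hS) c) = algebraMap ℂ ME c := by
      intro c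
      rw [algebraMap_ic, incF_ic, ← icE.commutes]
      rfl
    have : IsScalarTower ℂ (EF N hS) ME := IsScalarTower.of_algebraMap_eq fun c => (hconst' c).symm
    have hchar : CharZero (EF N hS) :=
      charZero_of_injective_algebraMap (algebraMap ℂ (EF N hS)).injective
    rcases line_or_field (P := EF N hS) F I hF z (fun a ha => ⟨ic hS ⟨_, hGr a ha⟩, by
      rw [halg, incF_ic]
      rfl⟩) hFz with h | ⟨z', hz1, hz2⟩
    · exact ⟨ME, inferInstance, hchar0, inferInstance, z, RingHom.id _, fun a => rfl,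
        fun c => rfl, h⟩
    · have hz1' : ∀ a, incF hS (z' a) = z a := hz1
      -- the coordinates have controlled growth
      have hzR : ∀ a, ∃ g : RR N hS, ic hS g = z' a ∧ ∀ w, (g : ℂ → ℂ) w = f w a := by
        intro a
        obtain ⟨A, B, hB, hAB⟩ := exists_frac hS (z' a)
        have h1 : ∀ w, f w a * (B : ℂ → ℂ) w = (A : ℂ → ℂ) w := by
          have h2 := congrArg (incF hS) hAB
          rw [hz1', map_div₀, incF_ic, incF_ic] at h2
          have hB0 : icE (incE hS B) ≠ 0 := by
            intro h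
            apply hB
            apply incE_inj hS
            rw [map_zero]
            exact icE_inj (by rw [h, map_zero])
          rw [div_eq_iff hB0] at h2
          have h3 : icE (incE hS A) = icE (fE a * incE hS B) := by
            rw [h2, map_mul]
          have h4 := icE_inj h3
          intro w
          exact (congrFun (congrArg Subtype.val h4) w).symm
        refine ⟨⟨_, Gr.quot hS A B hB _ (hf a) h1⟩, ?_, fun w => rfl⟩
        apply (incF hS).injective
        rw [incF_ic, hz1']
        rfl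
      choose g hg1 hg2 using hzR
      refine ⟨EF N hS, inferInstance, hchar, inferInstance, z', incF hS, hz1', hconst', ?_⟩
      have hginv : ∀ a ∈ I, ∃ g' : RR N hS, g a * g' = 1 := by
        intro a ha
        refine ⟨⟨fi a, hGri a ha⟩, ?_⟩
        apply Subtype.ext
        funext w
        show (g a : ℂ → ℂ) w * fi a w = 1
        rw [hg2]
        exact hfi1 a ha w
      have hne0 : ∀ a ∈ I, z' a ≠ 0 := by
        intro a ha h
        obtain ⟨g', hg'⟩ := hginv a ha
        have h1 := congrArg (ic hS) hg'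
        rw [map_mul, hg1, h, zero_mul, map_one] at h1
        exact zero_ne_one h1
      obtain ⟨u0, hu0⟩ : ∃ u0 : Fin n → (EF N hS)ˣ,
        u0 = fun a => if h : a ∈ I then Units.mk0 (z' a) (hne0 a h) else 1 := ⟨_, rfl⟩
      have hu0I : ∀ a ∈ I, (u0 a : EF N hS) = z' a := by
        intro a ha
        rw [hu0]
        simp only [dif_pos ha, Units.val_mk0]
      refine laurent_curve (cxDict hS) F I hF z' u0 ?_ ?_ ?_ hz2 ?_
      · intro a
        by_cases ha : a ∈ I
        · obtain ⟨g', hg'⟩ := hginv a ha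
          refine ⟨⟨g a, ?_⟩, ⟨g', ?_⟩⟩
          · rw [hu0I a ha, hg1]
          · rw [Units.val_inv_eq_inv_val, hu0I a ha, ← hg1]
            have h1 := congrArg (ic hS) hg'
            rw [map_mul, map_one] at h1
            exact (inv_eq_of_mul_eq_one_right h1).symm
        · have h1 : u0 a = 1 := by
            rw [hu0]
            simp only [dif_neg ha]
          rw [h1]
          exact (cxDict hS).U.one_mem
      · intro a ha
        exact (hu0I a ha).symm
      · intro a
        exact ⟨g a, hg1 a⟩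
      · intro hall
        obtain ⟨ε, hε⟩ : ∃ ε : ℝ, ε = 1 / (2 * (I.card + 1)) := ⟨_, rfl⟩
        have hε0 : 0 < ε := by rw [hε]; positivity
        have h1 : ∀ a ∈ I, ∀ᶠ s in LL N,
            Real.circleAverage (fun w => |Real.log ‖f w a‖|) 0 s ≤ ε * N s := by
          intro a ha
          have h2 := hall a ha ε hε0
          have h3 : ∀ᶠ w in EV N, AA hS (ic hS (g a)) w = ‖(g a : ℂ → ℂ) w‖ := AA_ic hS (g a)
          unfold EV at h3
          rw [Filter.eventually_bind] at h3
          filter_upwards [h2, h3, LL_ge 1] with s ⟨u, k1, k2, k3⟩ k4 k5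
          refine (avg_le_cod (ci_abs (ci_log (mero_of_diff (hf a)) s)) k1 (by linarith) ?_).trans k3
          filter_upwards [k2, k4] with w m1 m2
          have m3 : (cxDict hS).lg (u0 a : EF N hS) w = Real.log ‖f w a‖ := by
            show Real.log (AA hS (u0 a : EF N hS) w) = _
            rw [hu0I a ha, ← hg1 a, m2, hg2]
          rw [m3] at m1
          exact m1
        have h2 := (Filter.eventually_all_finset I).2 h1
        have := LL_neBot hS
        obtain ⟨s, h3, h4⟩ := (h2.and ((LL_tendsto hS).eventually_gt_atTop 2)).exists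
        have h5 := hNI s
        have h6 : ∑ a ∈ I, Real.circleAverage (fun w => |Real.log ‖f w a‖|) 0 s ≤
            I.card * (ε * N s) := by
          refine (Finset.sum_le_sum h3).trans ?_
          rw [Finset.sum_const, nsmul_eq_mul]
        have h7 : I.card * (ε * N s) ≤ N s / 2 := by
          have h8 : (I.card : ℝ) * ε ≤ 1 / 2 := by
            rw [hε, mul_one_div, div_le_iff₀ (by positivity)]
            linarith
          have h9 : (I.card : ℝ) * (ε * N s) = (I.card : ℝ) * ε * N s := by ring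
          rw [h9]
          have := mul_le_mul_of_nonneg_right h8 (show (0 : ℝ) ≤ N s by linarith)
          linarith
        linarith

theorem hasLaurent_of_entire {K : Type} [Field K] [NumberField K] (σ : K →+* ℂ) {ι κ : Type}
    {n : ℕ} (F : ι → MvPolynomial (Fin n) (𝓞 K)) (G : κ → MvPolynomial (Fin n) (𝓞 K))
    (I : Finset (Fin n)) (hF : ∀ i, LinOut I (F i))
    (hunit : ∀ a ∈ I, ∀ z : Fin n → ℂ,
      (∀ i, eval₂ (σ.comp (algebraMap (𝓞 K) K)) z (F i) = 0) → z a ≠ 0)
    (h : ¬ EntireCurvesIn σ F G) : HasLaurent F G := by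
  classical
  unfold EntireCurvesIn at h
  push Not at h
  obtain ⟨f, hfd, hfF, hnc, x, l, hl⟩ := h
  have hf : ∀ a, Differentiable ℂ fun z => f z a := fun a => by
    rw [differentiable_pi] at hfd
    exact hfd a
  obtain ⟨E, _, _, _, z', ψ, hψ, hψc, hL⟩ := entire_curve
    (fun i => MvPolynomial.map (σ.comp (algebraMap (𝓞 K) K)) (F i)) I
    (fun i s hs => hF i s (support_map_subset _ _ hs)) f hf
    (fun a ha z => hunit a ha (f z) (fun i => hfF z i))
    (fun i z => by
      rw [aeval_def, eval₂_map]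
      exact hfF z i) hnc
  refine hasLaurent_of_LCurve F G σ z' hL ⟨l, ?_⟩
  intro h0
  apply hl
  let fE : Fin n → Ent := fun a => ⟨fun z => f z a, hf a⟩
  let p := MvPolynomial.map (σ.comp (algebraMap (𝓞 K) K)) (G l)
  have h1 : aeval (fun a => icE (fE a)) p = 0 := by
    have h2 := congrArg ψ h0
    rw [map_zero, aeval_def, hom_eval₂] at h2
    rw [aeval_def, ← h2]
    have h3 : algebraMap ℂ ME = ψ.comp (algebraMap ℂ E) := by
      ext c
      exact (hψc c).symm
    rw [h3]
    congr 1
    funext a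
    exact (hψ a).symm
  have h2 : aeval (fun a => icE (fE a)) p = icE (aeval fE p) := (comp_aeval_apply _ icE p).symm
  have h3 : aeval fE p = 0 := by
    apply icE_inj
    rw [map_zero]
    exact h2.symm.trans h1
  have h4 : evz x (aeval fE p) = aeval (fun a => evz x (fE a)) p := comp_aeval_apply _ (evz x) p
  rw [h3, map_zero] at h4
  have h5 : aeval (fun a => evz x (fE a)) p = eval₂ (σ.comp (algebraMap (𝓞 K) K)) (f x) (G l) := by
    rw [aeval_def, eval₂_map]
    rfl
  rw [← h5, ← h4]

end Pool.Agent.Y742.CX
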